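import Pool.Agent.H35.NVK.HQa

/-!
# The singular factor over an abstract semigroup (M_HQ)
-/

set_option autoImplicit false

open MeasureTheory Set Filter
open scoped Real

namespace Pool.Agent.H35.NVK

open Pool.Agent.H23.NVK

section

variable {α : Type} {N : α → ℕ} {ρ δ : ℝ}

open Classical in
/-- the local function -/
noncomputable def hl (q : Finset α) (p : α) (k : ℕ) : ℝ :=
  if p ∈ q then (k : ℝ) + 1 else 1 - (k : ℝ)

theorem hl_eq (q : Finset α) (p : α) (k : ℕ) : hl q p k = 1 + k * dd (p ∈ q) := by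
  unfold hl dd
  split_ifs <;> ring

theorem hl_zero (q : Finset α) (p : α) : hl q p 0 = 1 := by
  rw [hl_eq]
  simp

theorem hq_eq (q : Finset α) (n : α →₀ ℕ) : hq q n = n.prod (hl q) := rfl

/-- the product with the power of the norm -/
theorem prod_rpow (_h2 : ∀ p, 2 ≤ N p) (s : ℝ) (g : α → ℕ → ℝ) (n : α →₀ ℕ) :
    n.prod (fun p k => g p k * ((N p : ℝ) ^ (-s)) ^ k) =
      n.prod g * (nF N n : ℝ) ^ (-s) := by
  unfold nF Finsupp.prod
  rw [Finset.prod_mul_distrib, Nat.cast_prod, ← Real.finsetProd_rpow]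
  · congr 1
    refine Finset.prod_congr rfl fun p _ => ?_
    rw [Nat.cast_pow, ← Real.rpow_natCast, ← Real.rpow_natCast, ← Real.rpow_mul
      (Nat.cast_nonneg _), ← Real.rpow_mul (Nat.cast_nonneg _), mul_comm (n p : ℝ) (-s)]
  · intro p _
    positivity

/-- the absolute value of the local function with the weight `3/4` -/
noncomputable def f2 (N : α → ℕ) (q : Finset α) (p : α) (k : ℕ) : ℝ :=
  |hl q p k| * ((N p : ℝ) ^ (-(3 / 4) : ℝ)) ^ k

theorem f2_nonneg (q : Finset α) (p : α) (k : ℕ) : 0 ≤ f2 N q p k := by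
  unfold f2
  positivity

theorem f2_prod (h2 : ∀ p, 2 ≤ N p) (q : Finset α) (n : α →₀ ℕ) :
    n.prod (f2 N q) = |hq q n| * (nF N n : ℝ) ^ (-(3 / 4) : ℝ) := by
  have h := prod_rpow h2 (3 / 4) (fun p k => |hl q p k|) n
  unfold f2
  rw [h, hq_eq]
  congr 1
  unfold Finsupp.prod
  rw [Finset.abs_prod]

open Classical in
theorem f2_loc (h2 : ∀ p, 2 ≤ N p) (q : Finset α) (p : α) : HasSum (f2 N q p)
    (if dd (p ∈ q) = 1 then 1 / (1 - (N p : ℝ) ^ (-(3 / 4) : ℝ)) ^ 2 else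
      1 + ((N p : ℝ) ^ (-(3 / 4) : ℝ)) ^ 2 / (1 - (N p : ℝ) ^ (-(3 / 4) : ℝ)) ^ 2) := by
  obtain ⟨h1, h3⟩ := x_bound (h2 p)
  have h4 := loc_abs (dd (p ∈ q)) _ h1.le (by linarith) (dd_cases _)
  refine h4.congr_fun ?_ |> id
  intro k
  unfold f2
  rw [hl_eq]

theorem f2_zero (q : Finset α) (p : α) : f2 N q p 0 = 1 := by
  unfold f2
  rw [hl_zero]
  simp

theorem sum32 (hS : T_SUM) (h : AxA N ρ δ) :
    Summable (fun p : α => (N p : ℝ) ^ (-(3 / 2) : ℝ)) := by
  have := (hS α N ρ δ h).2.1 (3 / 2) 0 (by norm_num)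
  refine this.congr fun p => ?_
  rw [pow_zero, one_mul]

theorem f2_summable (hS : T_SUM) (h : AxA N ρ δ) (q : Finset α) :
    Summable (fun x : α × ℕ => |f2 N q x.1 (x.2 + 1)|) := by
  classical
  have e : (fun x : α × ℕ => |f2 N q x.1 (x.2 + 1)|) =
      fun x : α × ℕ => f2 N q x.1 (x.2 + 1) := by
    ext x
    exact abs_of_nonneg (f2_nonneg _ _ _)
  rw [e, summable_prod_of_nonneg (fun x => f2_nonneg _ _ _)]
  have hs : ∀ p, Summable (fun k : ℕ => f2 N q p (k + 1)) := fun p =>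
    (summable_nat_add_iff 1).2 (f2_loc h.two q p).summable
  refine ⟨hs, ?_⟩
  have hb : ∀ p, ∑' k : ℕ, f2 N q p (k + 1) ≤
      25 / 4 * (N p : ℝ) ^ (-(3 / 2) : ℝ) + if p ∈ q then 7 else 0 := by
    intro p
    have h1 := (f2_loc h.two q p).summable.tsum_eq_zero_add
    rw [(f2_loc h.two q p).tsum_eq, f2_zero] at h1
    have h2 := loc_tail (h.two p) (p ∈ q)
    rw [h1] at h2
    linarith
  refine Summable.of_nonneg_of_le (fun p => tsum_nonneg fun k => f2_nonneg _ _ _) hb ?_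
  refine Summable.add ((sum32 hS h).mul_left _) ?_
  refine summable_of_ne_finset_zero (s := q) fun p hp => ?_
  rw [if_neg hp]

/-- the constant -/
noncomputable def Cq (N : α → ℕ) : ℝ := Real.exp (25 / 4 * ∑' p : α, (N p : ℝ) ^ (-(3 / 2) : ℝ))

open Classical in
theorem prod_bound (hS : T_SUM) (h : AxA N ρ δ) (q s : Finset α) :
    ∏ p ∈ s, (if dd (p ∈ q) = 1 then 1 / (1 - (N p : ℝ) ^ (-(3 / 4) : ℝ)) ^ 2 else
      1 + ((N p : ℝ) ^ (-(3 / 4) : ℝ)) ^ 2 / (1 - (N p : ℝ) ^ (-(3 / 4) : ℝ)) ^ 2) ≤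
      Cq N * Ef N q := by
  have h1 : ∏ p ∈ s, (if dd (p ∈ q) = 1 then 1 / (1 - (N p : ℝ) ^ (-(3 / 4) : ℝ)) ^ 2 else
      1 + ((N p : ℝ) ^ (-(3 / 4) : ℝ)) ^ 2 / (1 - (N p : ℝ) ^ (-(3 / 4) : ℝ)) ^ 2) ≤
      ∏ p ∈ s, ((if p ∈ q then 1 + 30 / Real.sqrt (N p) else 1) *
        Real.exp (25 / 4 * (N p : ℝ) ^ (-(3 / 2) : ℝ))) := by
    refine Finset.prod_le_prod (fun p _ => ?_) fun p _ => loc_bound (h.two p) (p ∈ q)
    split_ifs <;> positivity
  refine h1.trans ?_
  rw [Finset.prod_mul_distrib, ← Real.exp_sum, mul_comm]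
  refine mul_le_mul ?_ ?_ (Finset.prod_nonneg fun p _ => by split_ifs <;> positivity)
    (Real.exp_pos _).le
  · unfold Cq
    rw [Real.exp_le_exp, ← Finset.mul_sum]
    refine mul_le_mul_of_nonneg_left ?_ (by norm_num)
    exact (sum32 hS h).sum_le_tsum _ fun n _ => by positivity
  · rw [← Finset.prod_filter]
    unfold Ef
    have hsub : (s.filter fun p => p ∈ q) ⊆ q := fun p hp => (Finset.mem_filter.1 hp).2
    rw [← Finset.prod_sdiff hsub]
    have h2 : (1 : ℝ) ≤ ∏ p ∈ q \ s.filter fun p => p ∈ q, (1 + 30 / Real.sqrt (N p)) := by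
      have h3 : ∏ p ∈ q \ s.filter fun p => p ∈ q, (1 : ℝ) ≤
          ∏ p ∈ q \ s.filter fun p => p ∈ q, (1 + 30 / Real.sqrt (N p)) := by
        refine Finset.prod_le_prod (fun p _ => zero_le_one) fun p _ => ?_
        have : 0 ≤ 30 / Real.sqrt (N p) := by positivity
        linarith
      rwa [Finset.prod_const_one] at h3
    refine le_mul_of_one_le_left (Finset.prod_nonneg fun p _ => by positivity) h2

theorem gq_all (hE : T_EUL) (hS : T_SUM) (h : AxA N ρ δ) (q : Finset α) :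
    Summable (fun b : α →₀ ℕ => |hq q b| * (nF N b : ℝ) ^ (-(3 / 4) : ℝ)) ∧
    ∑' b : α →₀ ℕ, |hq q b| * (nF N b : ℝ) ^ (-(3 / 4) : ℝ) ≤ Cq N * Ef N q := by
  classical
  obtain ⟨h1, h2, h3, -⟩ := hE α (f2 N q) (f2_zero q) (f2_summable hS h q)
  have e : (fun b : α →₀ ℕ => |b.prod (f2 N q)|) =
      fun b : α →₀ ℕ => |hq q b| * (nF N b : ℝ) ^ (-(3 / 4) : ℝ) := by
    ext b
    rw [f2_prod h.two, abs_of_nonneg (by positivity)]
  have e' : (fun b : α →₀ ℕ => b.prod (f2 N q)) =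
      fun b : α →₀ ℕ => |hq q b| * (nF N b : ℝ) ^ (-(3 / 4) : ℝ) := by
    ext b
    rw [f2_prod h.two]
  rw [e] at h1
  rw [e'] at h3
  refine ⟨h1, ?_⟩
  rw [h3]
  refine h2.tprod_le_of_prod_le fun s => ?_
  rw [Finset.prod_congr rfl fun p _ => (f2_loc h.two q p).tsum_eq]
  exact prod_bound hS h q s

/-! ### The Euler product -/

open Classical in
/-- the local factor -/
noncomputable def lf (N : α → ℕ) (q : Finset α) (p : α) : ℝ :=
  if p ∈ q then (1 - 1 / (N p : ℝ))⁻¹ ^ 2 else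
    (1 - 2 / (N p : ℝ)) * (1 - 1 / (N p : ℝ))⁻¹ ^ 2

theorem Hq_lf (q : Finset α) : Hq N q = ∏' p : α, lf N q p := rfl

/-- the local function with the weight one -/
noncomputable def f3 (N : α → ℕ) (q : Finset α) (p : α) (k : ℕ) : ℝ :=
  hl q p k * ((N p : ℝ) ^ (-1 : ℝ)) ^ k

theorem f3_zero (q : Finset α) (p : α) : f3 N q p 0 = 1 := by
  unfold f3
  rw [hl_zero]
  simp

theorem f3_prod (h2 : ∀ p, 2 ≤ N p) (q : Finset α) (n : α →₀ ℕ) :
    n.prod (f3 N q) = hq q n / nF N n := by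
  have h := prod_rpow h2 1 (hl q) n
  unfold f3
  rw [h, hq_eq, Real.rpow_neg_one, div_eq_mul_inv]

theorem f3_loc (h2 : ∀ p, 2 ≤ N p) (q : Finset α) (p : α) :
    HasSum (f3 N q p) (lf N q p) := by
  classical
  have hp2 : (2 : ℝ) ≤ N p := by exact_mod_cast h2 p
  have hz0 : (0 : ℝ) ≤ 1 / N p := by positivity
  have hz1 : 1 / (N p : ℝ) < 1 := by
    rw [div_lt_one (by linarith)]
    linarith
  have h1 := loc_sum (dd (p ∈ q)) (1 / N p) hz0 hz1
  have h1z : 1 - 1 / (N p : ℝ) ≠ 0 := by linarith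
  have e : 1 / (1 - 1 / (N p : ℝ)) + dd (p ∈ q) * (1 / N p / (1 - 1 / (N p : ℝ)) ^ 2) =
      lf N q p := by
    unfold lf dd
    by_cases h : p ∈ q
    · rw [if_pos h, if_pos h]
      set z := 1 / (N p : ℝ) with hz
      field_simp
      ring
    · rw [if_neg h, if_neg h]
      have e : 2 / (N p : ℝ) = 2 * (1 / N p) := by ring
      rw [e]
      set z := 1 / (N p : ℝ) with hz
      field_simp
      ring
  rw [e] at h1
  refine h1.congr_fun ?_ |> id
  intro k
  unfold f3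
  rw [hl_eq, Real.rpow_neg_one, one_div]

theorem f3_summable (hS : T_SUM) (h : AxA N ρ δ) (q : Finset α) :
    Summable (fun x : α × ℕ => |f3 N q x.1 (x.2 + 1)|) := by
  refine Summable.of_nonneg_of_le (fun _ => abs_nonneg _) (fun x => ?_) (f2_summable hS h q)
  rw [abs_of_nonneg (f2_nonneg q x.1 (x.2 + 1))]
  unfold f3 f2
  have hp1 : (1 : ℝ) ≤ N x.1 := by exact_mod_cast (by have := h.two x.1; omega : 1 ≤ N x.1)
  have h0 : (0 : ℝ) ≤ (N x.1 : ℝ) ^ (-1 : ℝ) := by positivity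
  rw [abs_mul, abs_of_nonneg (pow_nonneg h0 _)]
  refine mul_le_mul_of_nonneg_left ?_ (abs_nonneg _)
  exact pow_le_pow_left₀ h0 (Real.rpow_le_rpow_of_exponent_le hp1 (by norm_num)) _

theorem Hq_all (hE : T_EUL) (hS : T_SUM) (h : AxA N ρ δ) (q : Finset α) :
    Multipliable (lf N q) ∧ ∑' b : α →₀ ℕ, hq q b / nF N b = Hq N q := by
  obtain ⟨-, h2, h3, -⟩ := hE α (f3 N q) (f3_zero q) (f3_summable hS h q)
  have e : (fun p : α => ∑' k : ℕ, f3 N q p k) = lf N q := by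
    ext p
    exact (f3_loc h.two q p).tsum_eq
  have e' : (fun b : α →₀ ℕ => b.prod (f3 N q)) = fun b : α →₀ ℕ => hq q b / nF N b := by
    ext b
    exact f3_prod h.two q b
  rw [e] at h2
  refine ⟨h2, ?_⟩
  rw [← e', h3, Hq_lf]
  exact congrArg (fun f : α → ℝ => ∏' p : α, f p) e

theorem lf_pos (h : AxA N ρ δ) {q : Finset α} (hq : Ad N q) (p : α) : 0 < lf N q p := by
  classical
  have hp2 : (2 : ℝ) ≤ N p := by exact_mod_cast h.two p
  have hz1 : 1 / (N p : ℝ) < 1 := by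
    rw [div_lt_one (by linarith)]
    linarith
  have h1z : 0 < 1 - 1 / (N p : ℝ) := by linarith
  unfold lf
  split_ifs with hp
  · positivity
  · have h3 : N p ≠ 2 := fun h' => hp (hq p h')
    have h4 : (3 : ℝ) ≤ N p := by
      have := h.two p
      exact_mod_cast (by omega : 3 ≤ N p)
    have h5 : 2 / (N p : ℝ) < 1 := by
      rw [div_lt_one (by linarith)]
      linarith
    have h6 : 0 < 1 - 2 / (N p : ℝ) := by linarith
    positivity

theorem Hq_pos (hS : T_SUM) (h : AxA N ρ δ) {q : Finset α} (hq : Ad N q) : 0 < Hq N q := by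
  classical
  have hsum : Summable fun p : α => lf N q p - 1 := by
    have h3 : Summable fun p : α => 4 * (N p : ℝ) ^ (-2 : ℝ) := by
      have := (hS α N ρ δ h).2.1 2 0 (by norm_num)
      refine (this.congr fun p => ?_).mul_left 4
      rw [pow_zero, one_mul]
    refine Summable.of_norm_bounded_eventually h3 ?_
    refine Filter.mem_of_superset (Set.Finite.compl_mem_cofinite q.finite_toSet) ?_
    intro p hp
    have hp' : p ∉ q := fun h' => hp (Finset.mem_coe.2 h')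
    have hp3 : N p ≠ 2 := fun h' => hp' (hq p h')
    have hp4 : (3 : ℝ) ≤ (N p : ℝ) := by
      have := h.two p
      exact_mod_cast (by omega : 3 ≤ N p)
    show ‖lf N q p - 1‖ ≤ 4 * (N p : ℝ) ^ (-2 : ℝ)
    have hz1 : 1 / (N p : ℝ) ≤ 1 / 3 := one_div_le_one_div_of_le (by norm_num) hp4
    have hz0 : 0 < 1 / (N p : ℝ) := by positivity
    have e1 : lf N q p - 1 = -((1 / (N p : ℝ)) ^ 2 / (1 - 1 / (N p : ℝ)) ^ 2) := by
      unfold lf
      rw [if_neg hp']
      have e : 2 / (N p : ℝ) = 2 * (1 / (N p : ℝ)) := by ring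
      rw [e]
      have h1z : 1 - 1 / (N p : ℝ) ≠ 0 := by linarith
      set z := 1 / (N p : ℝ) with hz
      field_simp
      ring
    have e2 : 4 * (N p : ℝ) ^ (-2 : ℝ) = 4 * (1 / (N p : ℝ)) ^ 2 := by
      rw [Real.rpow_neg (by linarith), one_div, inv_pow]
      norm_num
    rw [e1, norm_neg, Real.norm_of_nonneg (by positivity), e2]
    set z := 1 / (N p : ℝ) with hz
    have h5 : (1 / 4 : ℝ) ≤ (1 - z) ^ 2 := by nlinarith
    rw [div_le_iff₀ (by linarith)]
    nlinarith [sq_nonneg z]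
  have hlog : Summable fun p : α => Real.log (lf N q p) := by
    have h1 := Real.summable_log_one_add_of_summable hsum
    refine h1.congr fun p => ?_
    rw [add_sub_cancel]
  have h3 := Real.rexp_tsum_eq_tprod (f := fun p : α => lf N q p) (fun p => lf_pos h hq p) hlog
  rw [Hq_lf, ← h3]
  exact Real.exp_pos _

theorem Hq_mul (hE : T_EUL) (hS : T_SUM) (h : AxA N ρ δ) (q : Finset α) (p : α)
    (s : Finset α) (hp : p ∉ q) (hs : ∀ x, x ∈ s ↔ x = p ∨ x ∈ q) :
    Hq N s * (1 - 2 / (N p : ℝ)) = Hq N q := by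
  classical
  have h1 : HasProd (lf N s) (Hq N s) := (Hq_all hE hS h s).1.hasProd
  have h1' : HasProd (lf N q) (Hq N q) := (Hq_all hE hS h q).1.hasProd
  have h2 := hasProd_ite_eq p (1 - 2 / (N p : ℝ))
  have h3 := h1.mul h2
  have h4 : HasProd (lf N q) (Hq N s * (1 - 2 / (N p : ℝ))) := by
    refine h3.congr_fun ?_ |> id
    intro r
    by_cases hr : r = p
    · subst hr
      rw [if_pos rfl]
      show lf N q r = lf N s r * (1 - 2 / (N r : ℝ))
      unfold lf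
      rw [if_neg hp, if_pos ((hs r).2 (Or.inl rfl))]
      ring
    · rw [if_neg hr, mul_one]
      unfold lf
      have h5 : r ∈ s ↔ r ∈ q := by
        rw [hs r]
        exact ⟨fun h' => h'.resolve_left hr, Or.inr⟩
      by_cases h6 : r ∈ q
      · rw [if_pos h6, if_pos (h5.2 h6)]
      · rw [if_neg h6, if_neg (fun h' => h6 (h5.1 h'))]
  exact h4.unique h1'

end

theorem pf_HQ (hE : T_EUL) (hS : T_SUM) : T_HQ := by
  intro α N ρ δ h
  refine ⟨Cq N, Real.exp_pos _, fun q hq => ?_⟩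
  obtain ⟨h1, h2⟩ := gq_all hE hS h q
  obtain ⟨h3, h4⟩ := Hq_all hE hS h q
  refine ⟨Hq_pos hS h hq, ?_, fun p s hp hs => Hq_mul hE hS h q p s hp hs, h1, h2, h4⟩
  rw [← h4]
  refine le_trans ?_ h2
  have h5 : ∀ b : α →₀ ℕ, |Pool.Agent.H23.NVK.hq q b / nF N b| ≤
      |Pool.Agent.H23.NVK.hq q b| * (nF N b : ℝ) ^ (-(3 / 4) : ℝ) := by
    intro b
    have hb : (1 : ℝ) ≤ nF N b := by exact_mod_cast h.one_le_nF b
    rw [abs_div, abs_of_pos (by linarith : (0 : ℝ) < nF N b), div_eq_mul_inv,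
      ← Real.rpow_neg_one]
    exact mul_le_mul_of_nonneg_left
      (Real.rpow_le_rpow_of_exponent_le hb (by norm_num)) (abs_nonneg _)
  have h6 : Summable (fun b : α →₀ ℕ => Pool.Agent.H23.NVK.hq q b / (nF N b : ℝ)) :=
    (Summable.of_nonneg_of_le (fun _ => abs_nonneg _) h5 h1).of_abs
  exact h6.tsum_le_tsum (fun b => (le_abs_self _).trans (h5 b)) h1

end Pool.Agent.H35.NVK
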