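import Pool.Agent.H35.NVK.FMAd

/-!
# The first moment over the enlarged family (FMA)
-/

set_option autoImplicit false

open MeasureTheory Set Filter NumberField NumberField.InfinitePlace
open scoped Real

namespace Pool.Agent.H35.NVK

open Pool.Agent.H65.CM4 (Pl dg nm rv)
open Pool.Agent.H61.NVK (kp c0 ct sD zf)
open Pool.Agent.H89.NV (sd GW em tp PrI WW wbar wF qN RA good Z1 bD bs idS nS DM cm q4 ni kf np dR)
open Pool.Agent.H23.NVK (AxA NP SM FM T_AXK T_MU3 T_EQD T_FMA)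

section

variable {k : Type} [Field k] [NumberField k] [IsTotallyReal k]

theorem ev (g : ℕ) (hg : 0 < g) (θ T1 nR A1 A2 ε : ℝ) (hθ0 : 0 < θ) (hθ4 : θ < 1 / 4)
    (hε : 0 < ε) : ∃ T₀ : ℝ, ∀ T : ℝ, T₀ ≤ T → T1 ≤ T ∧ 1 ≤ T ∧ 2 ≤ T ^ (g * θ : ℝ) ∧
      T ^ (g * θ : ℝ) * nR ≤ T ^ (g * (1 / 2 - 1 / 100) : ℝ) ∧ A1 * T ^ (-(10 * g : ℝ)) ≤ ε ∧
      A2 / Real.log (T ^ (g * θ : ℝ)) ≤ ε := by
  have hg' : (0 : ℝ) < g := by exact_mod_cast hg
  have hgθ : 0 < (g : ℝ) * θ := mul_pos hg' hθ0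
  have t1 : Tendsto (fun T : ℝ => T ^ (g * θ : ℝ)) atTop atTop := tendsto_rpow_atTop hgθ
  have t2 : Tendsto (fun T : ℝ => T ^ (g * (1 / 2 - 1 / 100 - θ) : ℝ)) atTop atTop :=
    tendsto_rpow_atTop (mul_pos hg' (by linarith))
  have t3 : Tendsto (fun T : ℝ => A1 * T ^ (-(10 * g : ℝ))) atTop (nhds (A1 * 0)) :=
    (tendsto_rpow_neg_atTop (by positivity : (0 : ℝ) < 10 * g)).const_mul A1
  have t4 : Tendsto (fun T : ℝ => A2 / Real.log (T ^ (g * θ : ℝ))) atTop (nhds 0) :=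
    Tendsto.div_atTop tendsto_const_nhds (Real.tendsto_log_atTop.comp t1)
  rw [mul_zero] at t3
  have h := (eventually_ge_atTop T1).and ((eventually_ge_atTop (1 : ℝ)).and
    ((t1.eventually_ge_atTop 2).and ((t2.eventually_ge_atTop nR).and
      ((t3.eventually_le_const hε).and (t4.eventually_le_const hε)))))
  obtain ⟨T₀, hT₀⟩ := eventually_atTop.1 h
  refine ⟨T₀, fun T hT => ?_⟩
  obtain ⟨a1, a2, a3, a4, a5, a6⟩ := hT₀ T hT
  refine ⟨a1, a2, a3, ?_, a5, a6⟩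
  have hT0 : 0 < T := by linarith
  have e : T ^ (g * (1 / 2 - 1 / 100) : ℝ) =
      T ^ (g * θ : ℝ) * T ^ (g * (1 / 2 - 1 / 100 - θ) : ℝ) := by
    rw [← Real.rpow_add hT0]
    congr 1
    ring
  rw [e]
  exact mul_le_mul_of_nonneg_left a4 (Real.rpow_nonneg hT0.le _)

theorem fm1 (hAXK : T_AXK) (hMU3 : T_MU3) (hEQD : T_EQD)
    (hAFM : Pool.Agent.H89.NV.T_AFM k) (hWDN : Pool.Agent.H89.NV.T_WDN k)
    (hFMC : Pool.Agent.H89.NV.T_FMC k) : Pool.Agent.H89.NV.T_FM1 k := by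
  classical
  intro f R G η hf hR hG P θ ε hP hθ0 hθ4 hε
  obtain ⟨δ, hA⟩ := hAXK k
  obtain ⟨e1, e2, e3, e4, e5, e6, e7, e8⟩ := hEQD k δ hA
  have hone : ∀ S : Finset (PrI k), 1 ≤ nS S := fun S => by
    rw [e2]
    exact_mod_cast hA.one_le_nS S
  have hpos : ∀ S : Finset (PrI k), 0 < nS S := fun S => by linarith [hone S]
  have hmono : ∀ n : Finset (PrI k), n ⊆ R → nS n ≤ nS R := by
    intro n hn
    have h1 : nS R = nS n * nS (R \ n) := by
      unfold nS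
      rw [← Finset.prod_sdiff hn, mul_comm]
    rw [h1]
    exact le_mul_of_one_le_right (hpos n).le (hone _)
  have hg := dg_pos (k := k)
  have hf0 := nm_pos hf
  obtain ⟨K, hK⟩ := hWDN f R hf hR
  obtain ⟨T1, hT1⟩ := hAFM f (qN R) G η hf (qN_ne R) hG K (1 / 100) (by norm_num) le_rfl
  set L₁ : ℝ := dg k / 2 * |Real.log η| + |Real.log (nm f)| + Real.log (nS R) + |c0 k| with hL₁
  obtain ⟨C, hC, hMU⟩ := hMU3 (PrI k) (NP k) (kp k) δ hA P R (1 / (2 * θ)) L₁ hP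
  obtain ⟨CP, hCP, hcm⟩ := cm_bd (k := k) P
  obtain ⟨C1, hC1, hcard⟩ := card_SM hA
  set a : Finset (PrI k) → ℝ := fun n =>
    kf f / 2 ^ dg k * (wbar f (qN R) (wF f R n) ⊤ (idS n) / nS n) * kp k with ha
  set A1 : ℝ := R.powerset.card * (C1 * CP) with hA1
  set A2 : ℝ := (∑ n ∈ R.powerset, |a n|) * (C * ∫ u, |G u|) with hA2
  obtain ⟨T₀, hT₀⟩ := ev (dg k) hg θ T1 (nS R) A1 A2 (ε / 2) hθ0 hθ4 (by linarith)
  refine ⟨T₀, fun T hT => ?_⟩
  obtain ⟨h1, h2, h3, h4, h5, h6⟩ := hT₀ T hT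
  have hT0 : 0 < T := by linarith
  set M : ℝ := T ^ (dg k * θ : ℝ) with hM
  have hM1 : 1 ≤ M := by linarith
  have hlogM : Real.log M = dg k * θ * Real.log T := by
    rw [hM, Real.log_rpow hT0]
  have hlM0 : 0 < Real.log M := Real.log_pos (by linarith)
  have hTg : (T : ℝ) ^ dg k = T ^ (dg k : ℝ) := (Real.rpow_natCast T (dg k)).symm
  have hMT : M ≤ T ^ dg k := by
    rw [hTg, hM]
    refine Real.rpow_le_rpow_of_exponent_le h2 ?_
    have : (0 : ℝ) < dg k := by exact_mod_cast hg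
    nlinarith
  rw [sum_eq hFMC f R hf hR hG P hT0 hM1]
  -- the error terms
  have hE1 : ∀ n ∈ R.powerset, ∀ m ∈ DM k M,
      |cm P M R m / Real.sqrt (nS m * nS n) * (XX f R G T n m - YY f R G T n m)| ≤
        CP * T ^ (-(10 * dg k : ℝ)) := by
    intro n hn m hm
    rw [Finset.mem_powerset] at hn
    rw [e4, hA.mem_SM, ← e2] at hm
    have b1 : |cm P M R m / Real.sqrt (nS m * nS n)| ≤ CP := by
      rw [abs_div, abs_of_pos (Real.sqrt_pos.2 (mul_pos (hpos m) (hpos n)))]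
      refine (div_le_self (abs_nonneg _) ?_).trans (hcm M R m h3 (hone m))
      rw [← Real.sqrt_one]
      refine Real.sqrt_le_sqrt ?_
      have := one_le_mul_of_one_le_of_one_le (hone m) (hone n)
      linarith
    have b2 : |XX f R G T n m - YY f R G T n m| ≤ T ^ (-(10 * dg k : ℝ)) := by
      refine hT1 T h1 (idS m * idS n) (wF f R n) (hK n n hn hn).2
        (mul_ne_zero (idS_ne m) (idS_ne n)) ?_
      rw [nm_mul, e3, e3, ← e2, ← e2]
      refine (mul_le_mul hm (hmono n hn) (hpos n).le (by linarith)).trans ?_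
      exact h4
    rw [abs_mul]
    exact mul_le_mul b1 b2 (abs_nonneg _) hCP.le
  have hE2 : |∑ n ∈ R.powerset, ∑ m ∈ DM k M,
      cm P M R m / Real.sqrt (nS m * nS n) * (XX f R G T n m - YY f R G T n m)| ≤
        ε / 2 * T ^ dg k := by
    have b1 : |∑ n ∈ R.powerset, ∑ m ∈ DM k M,
        cm P M R m / Real.sqrt (nS m * nS n) * (XX f R G T n m - YY f R G T n m)| ≤
        ∑ n ∈ R.powerset, ∑ m ∈ DM k M, CP * T ^ (-(10 * dg k : ℝ)) := by
      refine (Finset.abs_sum_le_sum_abs _ _).trans (Finset.sum_le_sum fun n hn => ?_)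
      exact (Finset.abs_sum_le_sum_abs _ _).trans (Finset.sum_le_sum fun m hm => hE1 n hn m hm)
    refine b1.trans ?_
    rw [Finset.sum_const, Finset.sum_const, nsmul_eq_mul, nsmul_eq_mul, e4]
    have b2 : ((SM (NP k) M).card : ℝ) ≤ C1 * T ^ dg k :=
      (hcard M hM1).trans (mul_le_mul_of_nonneg_left hMT hC1.le)
    have b3 : 0 ≤ CP * T ^ (-(10 * dg k : ℝ)) := by positivity
    calc (R.powerset.card : ℝ) * (((SM (NP k) M).card : ℝ) * (CP * T ^ (-(10 * dg k : ℝ))))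
        ≤ R.powerset.card * (C1 * T ^ dg k * (CP * T ^ (-(10 * dg k : ℝ)))) :=
          mul_le_mul_of_nonneg_left (mul_le_mul_of_nonneg_right b2 b3) (Nat.cast_nonneg _)
      _ = A1 * T ^ (-(10 * dg k : ℝ)) * T ^ dg k := by rw [hA1]; ring
      _ ≤ ε / 2 * T ^ dg k := mul_le_mul_of_nonneg_right h5 (pow_nonneg hT0.le _)
  -- the main terms
  set B : ℝ := (kp k)⁻¹ * (∏ P ∈ R, (1 - 1 / (NP k P : ℝ))⁻¹) *
    (P.eval 1 + 1 / (2 * θ) * P.derivative.eval 1) with hB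
  have hκ : 1 / (2 * θ) * Real.log M = dg k / 2 * Real.log T := by
    rw [hlogM]
    field_simp
  have hE3 : ∀ n ∈ R.powerset, |(∑ m ∈ DM k M,
      cm P M R m / Real.sqrt (nS m * nS n) * YY f R G T n m) -
        a n * (B * (T ^ dg k * ∫ u, G u))| ≤
      |a n| * (C / Real.log M * (T ^ dg k * ∫ u, |G u|)) := by
    intro n hn
    rw [Finset.mem_powerset] at hn
    rw [main_n hFMC hA hEQD R hf hf0 hR hG P hT0 M hn, ← mul_sub, abs_mul]
    refine mul_le_mul_of_nonneg_left ?_ (abs_nonneg _)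
    refine int_bd hG hT0 n (SM (NP k) M)
      (fun m => Pool.Agent.H23.NVK.cm (NP k) P M R m / Pool.Agent.H23.NVK.nS (NP k) m)
      (fun m => Real.log (Pool.Agent.H23.NVK.nS (NP k) m)) B (C / Real.log M) L₁
      (div_pos hC hlM0).le ?_ ?_
    · intro L hL
      rw [← hκ] at hL
      exact (hMU M L h3 hL).2
    · rw [hL₁, abs_of_nonneg (Real.log_nonneg (hone n))]
      have := Real.log_le_log (hpos n) (hmono n hn)
      linarith
  have hprod : (∏ P ∈ R, (1 - 1 / np P)) * (∏ P ∈ R, (1 - 1 / (NP k P : ℝ))⁻¹) = 1 := by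
    rw [← Finset.prod_mul_distrib]
    refine Finset.prod_eq_one fun Q _ => ?_
    rw [e1]
    refine mul_inv_cancel₀ ?_
    have h7 : (2 : ℝ) ≤ NP k Q := by exact_mod_cast hA.two Q
    have h8 : 1 / (NP k Q : ℝ) ≤ 1 / 2 := one_div_le_one_div_of_le (by norm_num) h7
    linarith
  have hsum : ∑ n ∈ R.powerset, a n * (B * (T ^ dg k * ∫ u, G u)) =
      T ^ dg k * kf f * (∫ u, G u) * (dR R *
        (P.eval 1 + 1 / (2 * θ) * P.derivative.eval 1)) := by
    rw [← Finset.sum_mul]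
    have c1 : ∑ n ∈ R.powerset, a n = kf f / 2 ^ dg k * kp k *
        ((∏ P ∈ R, (1 - 1 / np P)) * (2 ^ dg k * dR R)) := by
      rw [← (hFMC f R hf hR).2.1, Finset.mul_sum]
      refine Finset.sum_congr rfl fun n _ => ?_
      rw [ha]
      ring
    rw [c1, hB]
    have c2 : kp k ≠ 0 := hA.rho.ne'
    have c3 : kf f / 2 ^ dg k * kp k * ((∏ P ∈ R, (1 - 1 / np P)) * (2 ^ dg k * dR R)) *
        ((kp k)⁻¹ * (∏ P ∈ R, (1 - 1 / (NP k P : ℝ))⁻¹) *
          (P.eval 1 + 1 / (2 * θ) * P.derivative.eval 1) * (T ^ dg k * ∫ u, G u)) =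
        (kp k * (kp k)⁻¹) * (2 ^ dg k / 2 ^ dg k) *
          ((∏ P ∈ R, (1 - 1 / np P)) * (∏ P ∈ R, (1 - 1 / (NP k P : ℝ))⁻¹)) *
        (T ^ dg k * kf f * (∫ u, G u) * (dR R *
          (P.eval 1 + 1 / (2 * θ) * P.derivative.eval 1))) := by
      ring
    rw [c3, hprod, mul_inv_cancel₀ c2, div_self (pow_ne_zero _ two_ne_zero)]
    ring
  have hE4 : |(∑ n ∈ R.powerset, ∑ m ∈ DM k M,
      cm P M R m / Real.sqrt (nS m * nS n) * YY f R G T n m) -
      T ^ dg k * kf f * (∫ u, G u) * (dR R *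
        (P.eval 1 + 1 / (2 * θ) * P.derivative.eval 1))| ≤ ε / 2 * T ^ dg k := by
    rw [← hsum, ← Finset.sum_sub_distrib]
    refine (Finset.abs_sum_le_sum_abs _ _).trans ((Finset.sum_le_sum hE3).trans ?_)
    rw [← Finset.sum_mul]
    have c4 : (∑ n ∈ R.powerset, |a n|) * (C / Real.log M * (T ^ dg k * ∫ u, |G u|)) =
        A2 / Real.log M * T ^ dg k := by
      rw [hA2]
      ring
    rw [c4]
    exact mul_le_mul_of_nonneg_right h6 (pow_nonneg hT0.le _)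
  have hfin : (∑ n ∈ R.powerset, ∑ m ∈ DM k M,
      cm P M R m / Real.sqrt (nS m * nS n) * XX f R G T n m) -
      T ^ dg k * kf f * (∫ u, G u) * (dR R *
        (P.eval 1 + 1 / (2 * θ) * P.derivative.eval 1)) =
      (∑ n ∈ R.powerset, ∑ m ∈ DM k M,
        cm P M R m / Real.sqrt (nS m * nS n) * (XX f R G T n m - YY f R G T n m)) +
      ((∑ n ∈ R.powerset, ∑ m ∈ DM k M,
      cm P M R m / Real.sqrt (nS m * nS n) * YY f R G T n m) -
      T ^ dg k * kf f * (∫ u, G u) * (dR R *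
        (P.eval 1 + 1 / (2 * θ) * P.derivative.eval 1))) := by
    have c5 : (∑ n ∈ R.powerset, ∑ m ∈ DM k M,
        cm P M R m / Real.sqrt (nS m * nS n) * (XX f R G T n m - YY f R G T n m)) =
        (∑ n ∈ R.powerset, ∑ m ∈ DM k M,
          cm P M R m / Real.sqrt (nS m * nS n) * XX f R G T n m) -
        ∑ n ∈ R.powerset, ∑ m ∈ DM k M,
          cm P M R m / Real.sqrt (nS m * nS n) * YY f R G T n m := by
      rw [← Finset.sum_sub_distrib]
      refine Finset.sum_congr rfl fun n _ => ?_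
      rw [← Finset.sum_sub_distrib]
      refine Finset.sum_congr rfl fun m _ => ?_
      ring
    rw [c5]
    ring
  rw [hfin]
  refine (abs_add_le _ _).trans ((add_le_add hE2 hE4).trans ?_)
  linarith

end

/-- (FMA) from the average of the sums over roots to the first moment. -/
theorem pf_FMA (hAXK : T_AXK) (hMU3 : T_MU3) (hEQD : T_EQD) : T_FMA := by
  intro k _ _ _ h1 h2 h3
  exact fm1 hAXK hMU3 hEQD h1 h2 h3

end Pool.Agent.H35.NVK
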