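import Pool.Agent.H23.NVK.JTargets

/-!
# The first moment over the enlarged family: the weight functions
-/

set_option autoImplicit false

open MeasureTheory Set Filter NumberField NumberField.InfinitePlace
open scoped Real

namespace Pool.Agent.H35.NVK

open Pool.Agent.H65.CM4 (Pl dg nm rv)
open Pool.Agent.H61.NVK (kp c0 ct sD)
open Pool.Agent.H89.NV (sd GW em tp)

section

variable {k : Type} [Field k] [NumberField k] [IsTotallyReal k]

theorem card_Pl : Fintype.card (Pl k) = dg k := by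
  unfold dg
  rw [IsTotallyReal.finrank, InfinitePlace.card_eq_nrRealPlaces_add_nrComplexPlaces,
    IsTotallyReal.nrComplexPlaces_eq_zero, add_zero]

theorem dg_pos : 0 < dg k := Module.finrank_pos

theorem GW_supp {η : ℝ} {G : (Pl k → ℝ) → ℝ} (h : GW η G) {u : Pl k → ℝ} (hu : G u ≠ 0) :
    ∀ v, u v ∈ Icc η (1 / η) := by
  by_contra hcon
  push Not at hcon
  exact hu (h.supp u hcon)

theorem GW_cone {η : ℝ} {G : (Pl k → ℝ) → ℝ} (h : GW η G) {T : ℝ} (hT : 0 < T)
    {d : Pl k → ℝ} (hu : G (fun v => d v / T) ≠ 0) (v : Pl k) :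
    T * η ≤ d v ∧ d v ≤ T * (1 / η) := by
  obtain ⟨h1, h2⟩ := GW_supp h hu v
  rw [le_div_iff₀ hT] at h1
  rw [div_le_iff₀ hT] at h2
  constructor <;> linarith

theorem fin_D {η : ℝ} {G : (Pl k → ℝ) → ℝ} (h : GW η G) {T : ℝ} (hT : 0 < T) :
    {D : 𝓞 k | G (fun v => em D v / T) ≠ 0}.Finite := by
  have h1 := NumberField.Embeddings.finite_of_norm_le k ℂ (T * (1 / η))
  refine Set.Finite.subset (h1.preimage
    (f := fun a : 𝓞 k => (a : k)) (RingOfIntegers.coe_injective.injOn)) ?_
  intro D hD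
  have h2 := GW_cone h hT hD
  refine ⟨D.isIntegral_coe, fun φ => ?_⟩
  obtain ⟨h3, h4⟩ := h2 (InfinitePlace.mk φ)
  have h5 : ‖φ (D : k)‖ = (InfinitePlace.mk φ) (D : k) := rfl
  rw [h5, ← norm_embedding_of_isReal (IsTotallyReal.isReal (InfinitePlace.mk φ)),
    Real.norm_eq_abs]
  have h6 : em D (InfinitePlace.mk φ) =
      (embedding_of_isReal (IsTotallyReal.isReal (InfinitePlace.mk φ))) (D : k) := rfl
  rw [← h6, abs_le]
  have h7 : 0 < T * η := mul_pos hT h.pos
  have h8 : 0 < T * (1 / η) := mul_pos hT (one_div_pos.2 h.pos)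
  constructor <;> linarith

theorem tp_of {η : ℝ} {G : (Pl k → ℝ) → ℝ} (h : GW η G) {T : ℝ} (hT : 0 < T) {D : 𝓞 k}
    (hD : G (fun v => em D v / T) ≠ 0) : tp D := by
  intro v
  have h1 := (GW_cone h hT hD v).1
  have h7 : 0 < T * η := mul_pos hT h.pos
  exact h7.trans_le h1

theorem integ {η : ℝ} {G : (Pl k → ℝ) → ℝ} (h : GW η G) {T : ℝ} (hT : 0 < T)
    {F : (Pl k → ℝ) → ℝ} (hF : ContinuousOn F {d | ∀ v, 0 < d v}) :
    Integrable (fun d : Pl k → ℝ => G (fun v => d v / T) * F d) := by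
  set K : Set (Pl k → ℝ) := Set.pi Set.univ (fun _ => Icc (T * η) (T * (1 / η))) with hK
  have hKc : IsCompact K := isCompact_univ_pi fun _ => isCompact_Icc
  have h7 : 0 < T * η := mul_pos hT h.pos
  have hKs : K ⊆ {d | ∀ v, 0 < d v} := fun d hd v => h7.trans_le (hd v (Set.mem_univ v)).1
  have hG : Continuous (fun d : Pl k → ℝ => G (fun v => d v / T)) := by
    refine h.smooth.continuous.comp ?_
    refine continuous_pi fun v => ?_
    have h2 : Continuous (fun d : Pl k → ℝ => d v) := continuous_apply v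
    exact h2.div_const T
  have h1 : IntegrableOn (fun d : Pl k → ℝ => G (fun v => d v / T) * F d) K := by
    refine ContinuousOn.integrableOn_compact hKc ?_
    exact hG.continuousOn.mul (hF.mono hKs)
  refine (integrableOn_iff_integrable_of_support_subset ?_).1 h1
  intro d hd
  have hd' : G (fun v => d v / T) ≠ 0 := by
    intro h0
    apply hd
    show G (fun v => d v / T) * F d = 0
    rw [h0, zero_mul]
  intro v _
  exact GW_cone h hT hd' v

theorem sD_cont : ContinuousOn (fun d : Pl k → ℝ => Real.log (sD d)) {d | ∀ v, 0 < d v} := by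
  have h1 : ContinuousOn (fun d : Pl k → ℝ => sD d) {d | ∀ v, 0 < d v} := by
    unfold sD
    refine Continuous.continuousOn ?_
    exact Real.continuous_sqrt.comp (continuous_finsetProd _ fun v _ => continuous_apply v)
  refine h1.log ?_
  intro d hd
  unfold sD
  exact (Real.sqrt_pos.2 (Finset.prod_pos fun v _ => hd v)).ne'

theorem sD_pos {d : Pl k → ℝ} (hd : ∀ v, 0 < d v) : 0 < sD d := by
  unfold sD
  exact Real.sqrt_pos.2 (Finset.prod_pos fun v _ => hd v)

theorem log_sD {d : Pl k → ℝ} (hd : ∀ v, 0 < d v) :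
    Real.log (sD d) = (∑ v, Real.log (d v)) / 2 := by
  unfold sD
  rw [Real.log_sqrt (Finset.prod_nonneg fun v _ => (hd v).le),
    Real.log_prod fun v _ => (hd v).ne']

/-- the size of the logarithm of the conductor -/
theorem log_sD_bd {η : ℝ} {G : (Pl k → ℝ) → ℝ} (h : GW η G) {T : ℝ} (hT : 0 < T)
    {d : Pl k → ℝ} (hu : G (fun v => d v / T) ≠ 0) :
    |Real.log (sD d) - dg k / 2 * Real.log T| ≤ dg k / 2 * |Real.log η| := by
  have h1 := GW_cone h hT hu
  have h7 : 0 < T * η := mul_pos hT h.pos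
  have hd : ∀ v, 0 < d v := fun v => h7.trans_le (h1 v).1
  have h2 : ∀ v, |Real.log (d v) - Real.log T| ≤ |Real.log η| := by
    intro v
    obtain ⟨h3, h4⟩ := h1 v
    have h5 : Real.log T + Real.log η ≤ Real.log (d v) := by
      rw [← Real.log_mul hT.ne' h.pos.ne']
      exact Real.log_le_log h7 h3
    have h6 : Real.log (d v) ≤ Real.log T - Real.log η := by
      rw [sub_eq_add_neg, ← Real.log_inv, ← Real.log_mul hT.ne' (inv_pos.2 h.pos).ne',
        ← one_div]
      exact Real.log_le_log (hd v) h4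
    rw [abs_le]
    constructor
    · linarith [neg_abs_le (Real.log η)]
    · linarith [neg_abs_le (Real.log η)]
  have h3 : Real.log (sD d) - dg k / 2 * Real.log T =
      (∑ v : Pl k, (Real.log (d v) - Real.log T)) / 2 := by
    rw [log_sD hd, Finset.sum_sub_distrib, Finset.sum_const, Finset.card_univ, card_Pl,
      nsmul_eq_mul]
    ring
  rw [h3, abs_div, abs_of_pos (by norm_num : (0 : ℝ) < 2)]
  have h4 : |∑ v : Pl k, (Real.log (d v) - Real.log T)| ≤ dg k * |Real.log η| := by
    refine (Finset.abs_sum_le_sum_abs _ _).trans ?_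
    refine (Finset.sum_le_sum fun v _ => h2 v).trans ?_
    rw [Finset.sum_const, Finset.card_univ, card_Pl, nsmul_eq_mul]
  linarith

theorem int_scale (G : (Pl k → ℝ) → ℝ) {T : ℝ} (hT : 0 < T) :
    ∫ d : Pl k → ℝ, G (fun v => d v / T) = T ^ dg k * ∫ u, G u := by
  have h1 := MeasureTheory.Measure.integral_comp_inv_smul_of_nonneg
    (volume : Measure (Pl k → ℝ)) G hT.le
  rw [Module.finrank_pi, card_Pl, smul_eq_mul] at h1
  rw [← h1]
  refine integral_congr_ae (ae_of_all _ fun d => ?_)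
  show G (fun v => d v / T) = G (T⁻¹ • d)
  congr 1
  ext v
  rw [Pi.smul_apply, smul_eq_mul, div_eq_inv_mul]

end

end Pool.Agent.H35.NVK
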