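import Pool.Agent.H35.NVK.FMAa

/-!
# The first moment over the enlarged family: the sum over the discriminants
-/

set_option autoImplicit false

open MeasureTheory Set Filter NumberField NumberField.InfinitePlace
open scoped Real

namespace Pool.Agent.H35.NVK

open Pool.Agent.H65.CM4 (Pl dg nm rv)
open Pool.Agent.H61.NVK (kp c0 ct sD zf)
open Pool.Agent.H89.NV (sd GW em tp PrI WW wbar wF qN RA good Z1 bD bs idS nS DM cm q4 ni kf)

section

variable {k : Type} [Field k] [NumberField k] [IsTotallyReal k]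

/-- the sum over the discriminants for one pair of ideals -/
noncomputable def XX (f : Ideal (𝓞 k)) (R : Finset (PrI k)) (G : (Pl k → ℝ) → ℝ) (T : ℝ)
    (n m : Finset (PrI k)) : ℝ :=
  ∑' D : 𝓞 k, G (fun v => em D v / T) *
    ∑ b ∈ bs f (idS m * idS n) D, wF f R n ⊤ (idS m * idS n) b (q4 (b ^ 2 + D)) *
      zf (idS m * idS n) f (em b) (em D)

theorem q4_spec {A : Ideal (𝓞 k)} {x : 𝓞 k} (h : x ∈ ni k 4 * A) : 4 * q4 x = x := by
  have h0 : ni k 4 * A ≤ ni k 4 := Ideal.mul_le_left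
  have h1 : x ∈ ni k 4 := h0 h
  unfold ni at h1
  rw [Ideal.mem_span_singleton] at h1
  obtain ⟨c, hc⟩ := h1
  have h2 : ∃ c : 𝓞 k, 4 * c = x := ⟨c, by rw [hc]; push_cast; ring⟩
  unfold q4
  rw [dif_pos h2]
  exact h2.choose_spec

theorem bs_mem {f A : Ideal (𝓞 k)} {D b : 𝓞 k} (h : b ∈ bs f A D) :
    b ^ 2 + D ∈ ni k 4 * (A * f ^ 2) := by
  classical
  unfold bs at h
  rw [Finset.mem_filter] at h
  exact h.2.2

theorem wF_zero {f A : Ideal (𝓞 k)} {R n : Finset (PrI k)} {D b : 𝓞 k} (h : b ∈ bs f A D)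
    (hg : ¬ good f R D) : wF f R n ⊤ A b (q4 (b ^ 2 + D)) = 0 := by
  have h1 := q4_spec (bs_mem h)
  unfold wF
  rw [h1, add_sub_cancel_left, if_neg hg]

open Classical in
theorem sum_eq (hF : Pool.Agent.H89.NV.T_FMC k) (f : Ideal (𝓞 k)) (R : Finset (PrI k))
    (hf : f ≠ ⊥) (hR : RA k R) {G : (Pl k → ℝ) → ℝ} {η : ℝ} (hG : GW η G) (P : Polynomial ℝ)
    {T M : ℝ} (hT : 0 < T) (hM : 1 ≤ M) :
    (∑' D : 𝓞 k, if good f R D then G (fun v => em D v / T) * Z1 P M f R (bD f D) D else 0) =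
      ∑ n ∈ R.powerset, ∑ m ∈ DM k M, cm P M R m / Real.sqrt (nS m * nS n) * XX f R G T n m := by
  have hfin := fin_D hG hT
  set S := hfin.toFinset with hS
  have hnS : ∀ D : 𝓞 k, D ∉ S → G (fun v => em D v / T) = 0 := by
    intro D hD
    rw [hS, Set.Finite.mem_toFinset] at hD
    by_contra h0
    exact hD h0
  have e1 : (∑' D : 𝓞 k, if good f R D then
      G (fun v => em D v / T) * Z1 P M f R (bD f D) D else 0) =
      ∑ D ∈ S, if good f R D then G (fun v => em D v / T) * Z1 P M f R (bD f D) D else 0 := by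
    refine tsum_eq_sum fun D hD => ?_
    rw [hnS D hD, zero_mul, ite_self]
  have e2 : ∀ n m : Finset (PrI k), XX f R G T n m = ∑ D ∈ S, G (fun v => em D v / T) *
      ∑ b ∈ bs f (idS m * idS n) D, wF f R n ⊤ (idS m * idS n) b (q4 (b ^ 2 + D)) *
        zf (idS m * idS n) f (em b) (em D) := by
    intro n m
    unfold XX
    refine tsum_eq_sum fun D hD => ?_
    rw [hnS D hD, zero_mul]
  rw [e1]
  simp only [e2]
  have e3 : (∑ n ∈ R.powerset, ∑ m ∈ DM k M, cm P M R m / Real.sqrt (nS m * nS n) *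
      ∑ D ∈ S, G (fun v => em D v / T) *
      ∑ b ∈ bs f (idS m * idS n) D, wF f R n ⊤ (idS m * idS n) b (q4 (b ^ 2 + D)) *
        zf (idS m * idS n) f (em b) (em D)) =
      ∑ D ∈ S, ∑ n ∈ R.powerset, ∑ m ∈ DM k M, cm P M R m / Real.sqrt (nS m * nS n) *
      (G (fun v => em D v / T) *
      ∑ b ∈ bs f (idS m * idS n) D, wF f R n ⊤ (idS m * idS n) b (q4 (b ^ 2 + D)) *
        zf (idS m * idS n) f (em b) (em D)) := by
    symm
    rw [Finset.sum_comm]
    refine Finset.sum_congr rfl fun n _ => ?_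
    rw [Finset.sum_comm]
    refine Finset.sum_congr rfl fun m _ => ?_
    rw [Finset.mul_sum]
  rw [e3]
  refine Finset.sum_congr rfl fun D hD => ?_
  have hD' : G (fun v => em D v / T) ≠ 0 := by
    rw [hS, Set.Finite.mem_toFinset] at hD
    exact hD
  have htp := tp_of hG hT hD'
  by_cases hg : good f R D
  · rw [if_pos hg, (hF f R hf hR).2.2 P M D hM htp hg, Finset.mul_sum]
    refine Finset.sum_congr rfl fun n _ => ?_
    rw [Finset.mul_sum]
    refine Finset.sum_congr rfl fun m _ => ?_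
    ring
  · rw [if_neg hg]
    symm
    refine Finset.sum_eq_zero fun n _ => Finset.sum_eq_zero fun m _ => ?_
    have h0 : ∑ b ∈ bs f (idS m * idS n) D, wF f R n ⊤ (idS m * idS n) b (q4 (b ^ 2 + D)) *
        zf (idS m * idS n) f (em b) (em D) = 0 := by
      refine Finset.sum_eq_zero fun b hb => ?_
      rw [wF_zero hb hg, zero_mul]
    rw [h0, mul_zero, mul_zero]

end

end Pool.Agent.H35.NVK
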