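import Pool.Agent.H35.NVK.FMAb

/-!
# The first moment over the enlarged family: the main terms
-/

set_option autoImplicit false

open MeasureTheory Set Filter NumberField NumberField.InfinitePlace
open scoped Real

namespace Pool.Agent.H35.NVK

open Pool.Agent.H65.CM4 (Pl dg nm rv)
open Pool.Agent.H61.NVK (kp c0 ct sD zf)
open Pool.Agent.H89.NV (sd GW em tp PrI WW wbar wF qN RA good Z1 bD bs idS nS DM cm q4 ni kf np dR)
open Pool.Agent.H23.NVK (AxA NP SM)

section

variable {k : Type} [Field k] [NumberField k] [IsTotallyReal k]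

/-- the main term for one pair of ideals -/
noncomputable def YY (f : Ideal (𝓞 k)) (R : Finset (PrI k)) (G : (Pl k → ℝ) → ℝ) (T : ℝ)
    (n m : Finset (PrI k)) : ℝ :=
  kf f / 2 ^ dg k * wbar f (qN R) (wF f R n) ⊤ (idS m * idS n) *
    ∫ d : Pl k → ℝ, G (fun v => d v / T) * ct (idS m * idS n) f d

/-- the logarithm in the main term -/
noncomputable def LL (f : Ideal (𝓞 k)) (n : Finset (PrI k)) (d : Pl k → ℝ) : ℝ :=
  Real.log (sD d) - Real.log (nm f) - Real.log (nS n) + c0 k

theorem nm_mul (I J : Ideal (𝓞 k)) : nm (I * J) = nm I * nm J := by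
  unfold nm
  rw [map_mul]
  push_cast
  ring

theorem LL_cont (f : Ideal (𝓞 k)) (n : Finset (PrI k)) (x : ℝ) :
    ContinuousOn (fun d : Pl k → ℝ => LL f n d - x) {d | ∀ v, 0 < d v} := by
  unfold LL
  exact (((sD_cont.sub continuousOn_const).sub continuousOn_const).add
    continuousOn_const).sub continuousOn_const

theorem ct_int {f : Ideal (𝓞 k)} (hf : 0 < nm f) {G : (Pl k → ℝ) → ℝ} {η : ℝ}
    (hG : GW η G) {T : ℝ} (hT : 0 < T) (n m : Finset (PrI k)) (hn : 0 < nS n) (hm : 0 < nS m)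
    (hn' : nm (idS n) = nS n) (hm' : nm (idS m) = nS m) :
    ∫ d : Pl k → ℝ, G (fun v => d v / T) * ct (idS m * idS n) f d =
      kp k / Real.sqrt (nS m * nS n) *
        ∫ d : Pl k → ℝ, G (fun v => d v / T) * (LL f n d - Real.log (nS m)) := by
  rw [← MeasureTheory.integral_const_mul]
  refine integral_congr_ae (ae_of_all _ fun d => ?_)
  show G (fun v => d v / T) * ct (idS m * idS n) f d = kp k / Real.sqrt (nS m * nS n) *
    (G (fun v => d v / T) * (LL f n d - Real.log (nS m)))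
  by_cases h0 : G (fun v => d v / T) = 0
  · rw [h0, zero_mul, zero_mul, mul_zero]
  · have h1 := GW_cone hG hT h0
    have h7 : 0 < T * η := mul_pos hT hG.pos
    have hd : ∀ v, 0 < d v := fun v => h7.trans_le (h1 v).1
    have h2 := sD_pos hd
    unfold ct LL
    rw [nm_mul, hn', hm', Real.log_div h2.ne' (mul_pos hf (mul_pos hm hn)).ne',
      Real.log_mul hf.ne' (mul_pos hm hn).ne', Real.log_mul hm.ne' hn.ne']
    ring

/-- the main terms for one set `n` -/
theorem main_n (hF : Pool.Agent.H89.NV.T_FMC k) {δ : ℝ} (hA : AxA (NP k) (kp k) δ)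
    (hEQD : Pool.Agent.H23.NVK.T_EQD) {f : Ideal (𝓞 k)} (R : Finset (PrI k)) (hf : f ≠ ⊥)
    (hf0 : 0 < nm f) (hR : RA k R) {G : (Pl k → ℝ) → ℝ} {η : ℝ} (hG : GW η G)
    (P : Polynomial ℝ) {T : ℝ} (hT : 0 < T) (M : ℝ) {n : Finset (PrI k)} (hn : n ⊆ R) :
    ∑ m ∈ DM k M, cm P M R m / Real.sqrt (nS m * nS n) * YY f R G T n m =
      kf f / 2 ^ dg k * (wbar f (qN R) (wF f R n) ⊤ (idS n) / nS n) * kp k *
        ∫ d : Pl k → ℝ, G (fun v => d v / T) * ∑ m ∈ SM (NP k) M,
          Pool.Agent.H23.NVK.cm (NP k) P M R m / Pool.Agent.H23.NVK.nS (NP k) m *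
            (LL f n d - Real.log (Pool.Agent.H23.NVK.nS (NP k) m)) := by
  obtain ⟨e1, e2, e3, e4, e5, e6, e7, e8⟩ := hEQD k δ hA
  have hpos : ∀ S : Finset (PrI k), 0 < nS S := fun S => by
    rw [e2]
    exact hA.nS_pos S
  have hnm : ∀ S : Finset (PrI k), nm (idS S) = nS S := fun S => by rw [e3, e2]
  have h1 : (∫ d : Pl k → ℝ, G (fun v => d v / T) * ∑ m ∈ SM (NP k) M,
      Pool.Agent.H23.NVK.cm (NP k) P M R m / Pool.Agent.H23.NVK.nS (NP k) m *
        (LL f n d - Real.log (Pool.Agent.H23.NVK.nS (NP k) m))) =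
      ∑ m ∈ DM k M, cm P M R m / nS m *
        ∫ d : Pl k → ℝ, G (fun v => d v / T) * (LL f n d - Real.log (nS m)) := by
    rw [e4]
    have h2 : ∀ d : Pl k → ℝ, G (fun v => d v / T) * ∑ m ∈ SM (NP k) M,
        Pool.Agent.H23.NVK.cm (NP k) P M R m / Pool.Agent.H23.NVK.nS (NP k) m *
          (LL f n d - Real.log (Pool.Agent.H23.NVK.nS (NP k) m)) =
        ∑ m ∈ SM (NP k) M, cm P M R m / nS m *
          (G (fun v => d v / T) * (LL f n d - Real.log (nS m))) := by
      intro d
      rw [Finset.mul_sum]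
      refine Finset.sum_congr rfl fun m _ => ?_
      rw [e6, e2]
      ring
    simp only [h2]
    rw [integral_finset_sum]
    · refine Finset.sum_congr rfl fun m _ => ?_
      rw [MeasureTheory.integral_const_mul]
    · intro m _
      exact (integ hG hT (LL_cont f n _)).const_mul _
  rw [h1, Finset.mul_sum]
  refine Finset.sum_congr rfl fun m _ => ?_
  by_cases hc : cm P M R m = 0
  · rw [hc]
    simp
  · have hdis : Disjoint m R := by
      by_contra hcon
      apply hc
      unfold cm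
      rw [if_neg fun h => hcon h.2]
    unfold YY
    rw [(hF f R hf hR).1 n m hn hdis, ct_int hf0 hG hT n m (hpos n) (hpos m) (hnm n) (hnm m)]
    set I := ∫ d : Pl k → ℝ, G (fun v => d v / T) * (LL f n d - Real.log (nS m))
    have hs : Real.sqrt (nS m * nS n) * Real.sqrt (nS m * nS n) = nS m * nS n :=
      Real.mul_self_sqrt (mul_pos (hpos m) (hpos n)).le
    have hs0 : 0 < Real.sqrt (nS m * nS n) := Real.sqrt_pos.2 (mul_pos (hpos m) (hpos n))
    have ha := (hpos m).ne'
    have hb := (hpos n).ne'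
    have h3 : cm P M R m / Real.sqrt (nS m * nS n) *
        (kf f / 2 ^ dg k * wbar f (qN R) (wF f R n) ⊤ (idS n) *
          (kp k / Real.sqrt (nS m * nS n) * I)) =
        cm P M R m * (kf f / 2 ^ dg k * wbar f (qN R) (wF f R n) ⊤ (idS n)) * kp k * I /
          (Real.sqrt (nS m * nS n) * Real.sqrt (nS m * nS n)) := by
      field_simp
    rw [h3, hs]
    field_simp

end

end Pool.Agent.H35.NVK
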