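import Pool.Agent.H35.NVK.FMAc

/-!
# The first moment over the enlarged family: bounds
-/

set_option autoImplicit false

open MeasureTheory Set Filter NumberField NumberField.InfinitePlace
open scoped Real

namespace Pool.Agent.H35.NVK

open Pool.Agent.H65.CM4 (Pl dg nm rv)
open Pool.Agent.H61.NVK (kp c0 ct sD zf)
open Pool.Agent.H89.NV (sd GW em tp PrI WW wbar wF qN RA good Z1 bD bs idS nS DM cm q4 ni kf np dR)
open Pool.Agent.H23.NVK (AxA NP SM FM)

/-- the number of the squarefree ideals -/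
theorem card_SM {α : Type} {N : α → ℕ} {ρ δ : ℝ} (h : AxA N ρ δ) :
    ∃ C : ℝ, 0 < C ∧ ∀ y : ℝ, 1 ≤ y → ((SM N y).card : ℝ) ≤ C * y := by
  classical
  obtain ⟨C, hC, hcnt⟩ := h.cnt
  refine ⟨ρ + C, add_pos h.rho hC, fun y hy => ?_⟩
  have h1 := h.sum_SM y (fun _ => 1)
  rw [Finset.sum_const, nsmul_eq_mul, mul_one] at h1
  rw [h1]
  have h2 : (∑ n ∈ FM N y, if ∀ p, n p ≤ 1 then (1 : ℝ) else 0) ≤ ((FM N y).card : ℝ) := by
    rw [← nsmul_one, ← Finset.sum_const]
    refine Finset.sum_le_sum fun n _ => ?_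
    split_ifs <;> norm_num
  refine h2.trans ?_
  have h3 := (abs_le.1 (hcnt y hy)).2
  have h4 : y ^ (1 - δ) ≤ y := by
    have := Real.rpow_le_rpow_of_exponent_le hy (by linarith [h.del] : 1 - δ ≤ 1)
    rwa [Real.rpow_one] at this
  nlinarith

section

variable {k : Type} [Field k] [NumberField k] [IsTotallyReal k]

/-- the size of the coefficients -/
theorem cm_bd (P : Polynomial ℝ) : ∃ C : ℝ, 0 < C ∧ ∀ (M : ℝ) (R m : Finset (PrI k)),
    2 ≤ M → 1 ≤ nS m → |cm P M R m| ≤ C := by
  obtain ⟨C, hC⟩ := (isCompact_Icc (a := (0 : ℝ)) (b := 1)).exists_bound_of_continuousOn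
    (f := fun x => P.eval x) P.continuous.continuousOn
  refine ⟨|C| + 1, by positivity, fun M R m hM hm => ?_⟩
  unfold cm
  split_ifs with h
  · have hM0 : 0 < Real.log M := Real.log_pos (by linarith)
    have h1 : Real.log (M / nS m) / Real.log M ∈ Icc (0 : ℝ) 1 := by
      constructor
      · refine div_nonneg (Real.log_nonneg ?_) hM0.le
        rw [le_div_iff₀ (by linarith)]
        linarith [h.1]
      · rw [div_le_one hM0]
        refine Real.log_le_log (div_pos (by linarith) (by linarith)) ?_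
        exact div_le_self (by linarith) hm
    have h2 := hC _ h1
    rw [abs_mul, abs_pow, abs_neg, abs_one, one_pow, one_mul]
    rw [Real.norm_eq_abs] at h2
    exact h2.trans ((le_abs_self C).trans (by linarith))
  · rw [abs_zero]
    positivity

theorem idS_ne (S : Finset (PrI k)) : idS S ≠ ⊥ := by
  classical
  unfold idS
  exact Finset.prod_ne_zero_iff.2 fun P _ => P.2.2

theorem qN_ne (R : Finset (PrI k)) : qN R ≠ ⊥ := by
  unfold qN
  rw [← Ideal.zero_eq_bot]
  refine mul_ne_zero ?_ (pow_ne_zero 2 ?_)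
  · unfold ni
    rw [Ideal.zero_eq_bot, Ne, Ideal.span_singleton_eq_bot]
    norm_num
  · rw [Ideal.zero_eq_bot]
    exact idS_ne R

theorem nm_pos {I : Ideal (𝓞 k)} (h : I ≠ ⊥) : 0 < nm I := by
  unfold nm
  have h1 : Ideal.absNorm I ≠ 0 := fun h0 => h (Ideal.absNorm_eq_zero_iff.1 h0)
  exact_mod_cast Nat.pos_of_ne_zero h1

/-- the integral of the main sum -/
theorem int_bd {f : Ideal (𝓞 k)} {G : (Pl k → ℝ) → ℝ} {η : ℝ}
    (hG : GW η G) {T : ℝ} (hT : 0 < T) (n : Finset (PrI k)) {α : Type} (s : Finset α)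
    (a b : α → ℝ) (B E L₁ : ℝ) (hE : 0 ≤ E)
    (hS : ∀ L : ℝ, |L - dg k / 2 * Real.log T| ≤ L₁ →
      |∑ m ∈ s, a m * (L - b m) - B| ≤ E)
    (hL : dg k / 2 * |Real.log η| + |Real.log (nm f)| + |Real.log (nS n)| + |c0 k| ≤ L₁) :
    |(∫ d : Pl k → ℝ, G (fun v => d v / T) * ∑ m ∈ s, a m * (LL f n d - b m)) -
      B * (T ^ dg k * ∫ u, G u)| ≤ E * (T ^ dg k * ∫ u, |G u|) := by
  have h1 : Integrable (fun d : Pl k → ℝ => G (fun v => d v / T) * ∑ m ∈ s,
      a m * (LL f n d - b m)) := by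
    refine integ hG hT ?_
    refine continuousOn_finsetSum _ fun m _ => ?_
    exact continuousOn_const.mul (LL_cont f n _)
  have h2 : Integrable (fun d : Pl k → ℝ => G (fun v => d v / T)) := by
    have := integ hG hT (F := fun _ => 1) continuousOn_const
    simpa using this
  have h3 : (∫ d : Pl k → ℝ, G (fun v => d v / T) * ∑ m ∈ s, a m * (LL f n d - b m)) -
      B * (T ^ dg k * ∫ u, G u) =
      ∫ d : Pl k → ℝ, G (fun v => d v / T) * (∑ m ∈ s, a m * (LL f n d - b m) - B) := by
    rw [← int_scale G hT, ← MeasureTheory.integral_const_mul, ← integral_sub h1 (h2.const_mul B)]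
    refine integral_congr_ae (ae_of_all _ fun d => ?_)
    show G (fun v => d v / T) * ∑ m ∈ s, a m * (LL f n d - b m) - B * G (fun v => d v / T) =
      G (fun v => d v / T) * (∑ m ∈ s, a m * (LL f n d - b m) - B)
    ring
  rw [h3, ← int_scale (fun u => |G u|) hT, ← MeasureTheory.integral_const_mul,
    ← Real.norm_eq_abs]
  refine norm_integral_le_of_norm_le (h2.abs.const_mul E) (ae_of_all _ fun d => ?_)
  rw [norm_mul, Real.norm_eq_abs, Real.norm_eq_abs]
  by_cases h0 : G (fun v => d v / T) = 0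
  · rw [h0, abs_zero, zero_mul, mul_zero]
  · rw [mul_comm E]
    refine mul_le_mul_of_nonneg_left ?_ (abs_nonneg _)
    refine hS _ ?_
    refine le_trans ?_ hL
    have h4 := log_sD_bd hG hT h0
    have e : LL f n d - dg k / 2 * Real.log T =
        (Real.log (sD d) - dg k / 2 * Real.log T) + (-Real.log (nm f)) + (-Real.log (nS n)) +
          c0 k := by
      unfold LL
      ring
    rw [e]
    refine (abs_add_le _ _).trans (add_le_add ?_ le_rfl)
    refine (abs_add_le _ _).trans (add_le_add ?_ (abs_neg _).le)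
    refine (abs_add_le _ _).trans (add_le_add h4 (abs_neg _).le)

end

end Pool.Agent.H35.NVK
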