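import Pool.Agent.H23.NVK.MTargets

/-!
# The singular factor over an abstract semigroup: local sums
-/

set_option autoImplicit false

open MeasureTheory Set Filter
open scoped Real

namespace Pool.Agent.H35.NVK

open Pool.Agent.H23.NVK

/-! ### Local sums -/

/-- the sign -/
noncomputable def dd (P : Prop) : ℝ := open Classical in if P then 1 else -1

theorem dd_cases (P : Prop) : dd P = 1 ∨ dd P = -1 := by
  unfold dd
  split_ifs
  · exact Or.inl rfl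
  · exact Or.inr rfl

theorem loc_sum (d x : ℝ) (h0 : 0 ≤ x) (h1 : x < 1) :
    HasSum (fun n : ℕ => (1 + n * d) * x ^ n) (1 / (1 - x) + d * (x / (1 - x) ^ 2)) := by
  have h2 := hasSum_geometric_of_lt_one h0 h1
  have h3 := (hasSum_coe_mul_geometric_of_norm_lt_one (r := x)
    (by rw [Real.norm_of_nonneg h0]; exact h1)).mul_left d
  have h4 := h2.add h3
  rw [one_div]
  refine h4.congr_fun ?_ |> id
  intro n
  ring

theorem loc_abs (d x : ℝ) (h0 : 0 ≤ x) (h1 : x < 1) (hd : d = 1 ∨ d = -1) :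
    HasSum (fun n : ℕ => |1 + n * d| * x ^ n)
      (if d = 1 then 1 / (1 - x) ^ 2 else 1 + x ^ 2 / (1 - x) ^ 2) := by
  have h1x : 1 - x ≠ 0 := by linarith
  rcases hd with rfl | rfl
  · rw [if_pos rfl]
    have h2 := loc_sum 1 x h0 h1
    have e : 1 / (1 - x) + 1 * (x / (1 - x) ^ 2) = 1 / (1 - x) ^ 2 := by
      field_simp
      ring
    rw [e] at h2
    refine h2.congr_fun ?_ |> id
    intro n
    rw [abs_of_nonneg (by positivity)]
  · rw [if_neg (by norm_num)]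
    have h2 := ((loc_sum (-1) x h0 h1).neg).add (hasSum_ite_eq (0 : ℕ) (2 : ℝ))
    have e : -(1 / (1 - x) + -1 * (x / (1 - x) ^ 2)) + 2 = 1 + x ^ 2 / (1 - x) ^ 2 := by
      field_simp
      ring
    rw [e] at h2
    refine h2.congr_fun ?_ |> id
    intro n
    rcases Nat.eq_zero_or_pos n with rfl | hn
    · simp
      norm_num
    · rw [if_neg (by omega)]
      have h3 : (1 : ℝ) ≤ n := by exact_mod_cast hn
      rw [abs_of_nonpos (by linarith)]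
      ring

theorem x_bound {n : ℕ} (hp : 2 ≤ n) : 0 < (n : ℝ) ^ (-(3 / 4) : ℝ) ∧
    (n : ℝ) ^ (-(3 / 4) : ℝ) ≤ 3 / 5 := by
  have hp2 : (2 : ℝ) ≤ n := by exact_mod_cast hp
  refine ⟨Real.rpow_pos_of_pos (by linarith) _, ?_⟩
  have h1 : (n : ℝ) ^ (-(3 / 4) : ℝ) ≤ (2 : ℝ) ^ (-(3 / 4) : ℝ) :=
    Real.rpow_le_rpow_of_nonpos (by norm_num) hp2 (by norm_num)
  refine h1.trans ?_
  have h2 : (2 : ℝ) ^ (-(3 / 4) : ℝ) = ((2 : ℝ) ^ (-3 : ℝ)) ^ ((4 : ℝ)⁻¹) := by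
    rw [← Real.rpow_mul (by norm_num)]
    norm_num
  have h3 : (3 / 5 : ℝ) = ((3 / 5 : ℝ) ^ (4 : ℝ)) ^ ((4 : ℝ)⁻¹) := by
    rw [← Real.rpow_mul (by norm_num)]
    norm_num
  rw [h2, h3]
  refine Real.rpow_le_rpow (by positivity) ?_ (by norm_num)
  rw [Real.rpow_neg (by norm_num)]
  norm_num

theorem x_sq {n : ℕ} (hp : 2 ≤ n) :
    ((n : ℝ) ^ (-(3 / 4) : ℝ)) ^ 2 = (n : ℝ) ^ (-(3 / 2) : ℝ) := by
  have hp2 : (2 : ℝ) ≤ n := by exact_mod_cast hp
  rw [← Real.rpow_natCast, ← Real.rpow_mul (by linarith)]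
  norm_num

/-- the bound for the local sum -/
theorem loc_bound {n : ℕ} (hp : 2 ≤ n) (P : Prop) [Decidable P] :
    (if dd P = 1 then 1 / (1 - (n : ℝ) ^ (-(3 / 4) : ℝ)) ^ 2 else
      1 + ((n : ℝ) ^ (-(3 / 4) : ℝ)) ^ 2 / (1 - (n : ℝ) ^ (-(3 / 4) : ℝ)) ^ 2) ≤
    (if P then 1 + 30 / Real.sqrt n else 1) *
      Real.exp (25 / 4 * (n : ℝ) ^ (-(3 / 2) : ℝ)) := by
  obtain ⟨h1, h2⟩ := x_bound hp
  have hp1 : (1 : ℝ) ≤ n := by exact_mod_cast (by omega : 1 ≤ n)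
  have hx2 := x_sq hp
  set x := (n : ℝ) ^ (-(3 / 4) : ℝ) with hx
  have h3 : (4 / 25 : ℝ) ≤ (1 - x) ^ 2 := by nlinarith
  have h4 : 0 < (1 - x) ^ 2 := by linarith
  have hs : 0 < Real.sqrt n := Real.sqrt_pos.2 (by linarith)
  have hxs : x ≤ 1 / Real.sqrt n := by
    have e : 1 / Real.sqrt n = (n : ℝ) ^ (-(1 / 2) : ℝ) := by
      rw [Real.rpow_neg (by linarith), ← Real.sqrt_eq_rpow, one_div]
    rw [e]
    exact Real.rpow_le_rpow_of_exponent_le hp1 (by norm_num)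
  have hexp : 1 ≤ Real.exp (25 / 4 * (n : ℝ) ^ (-(3 / 2) : ℝ)) :=
    Real.one_le_exp (by positivity)
  by_cases h : P
  · have hd : dd P = 1 := by
      unfold dd
      rw [if_pos h]
    rw [if_pos hd, if_pos h]
    have h5 : 1 / (1 - x) ^ 2 ≤ 1 + 30 / Real.sqrt n := by
      rw [div_le_iff₀ h4]
      have h6 : 30 / Real.sqrt n = 30 * (1 / Real.sqrt n) := by ring
      rw [h6]
      have h7 : 30 * x ≤ 30 * (1 / Real.sqrt n) := by linarith
      nlinarith [mul_nonneg h1.le h4.le]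
    calc _ ≤ _ := h5
      _ = (1 + 30 / Real.sqrt n) * 1 := by ring
      _ ≤ _ := mul_le_mul_of_nonneg_left hexp (by positivity)
  · have hd : ¬ dd P = 1 := by
      unfold dd
      rw [if_neg h]
      norm_num
    rw [if_neg hd, if_neg h, one_mul]
    have h5 : x ^ 2 / (1 - x) ^ 2 ≤ 25 / 4 * x ^ 2 := by
      rw [div_le_iff₀ h4]
      nlinarith [sq_nonneg x]
    rw [← hx2]
    have h6 := Real.add_one_le_exp (25 / 4 * x ^ 2)
    linarith

/-- the bound for the local sum without the term of index zero -/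
theorem loc_tail {n : ℕ} (hp : 2 ≤ n) (P : Prop) [Decidable P] :
    (if dd P = 1 then 1 / (1 - (n : ℝ) ^ (-(3 / 4) : ℝ)) ^ 2 else
      1 + ((n : ℝ) ^ (-(3 / 4) : ℝ)) ^ 2 / (1 - (n : ℝ) ^ (-(3 / 4) : ℝ)) ^ 2) - 1 ≤
    25 / 4 * (n : ℝ) ^ (-(3 / 2) : ℝ) + if P then 7 else 0 := by
  obtain ⟨h1, h2⟩ := x_bound hp
  have hx2 := x_sq hp
  set x := (n : ℝ) ^ (-(3 / 4) : ℝ) with hx
  have h3 : (4 / 25 : ℝ) ≤ (1 - x) ^ 2 := by nlinarith
  have h4 : 0 < (1 - x) ^ 2 := by linarith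
  rw [← hx2]
  by_cases h : P
  · have hd : dd P = 1 := by
      unfold dd
      rw [if_pos h]
    rw [if_pos hd, if_pos h]
    have h5 : 1 / (1 - x) ^ 2 ≤ 7 := by
      rw [div_le_iff₀ h4]
      linarith
    nlinarith [sq_nonneg x]
  · have hd : ¬ dd P = 1 := by
      unfold dd
      rw [if_neg h]
      norm_num
    rw [if_neg hd, if_neg h]
    have h5 : x ^ 2 / (1 - x) ^ 2 ≤ 25 / 4 * x ^ 2 := by
      rw [div_le_iff₀ h4]
      nlinarith [sq_nonneg x]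
    linarith

end Pool.Agent.H35.NVK
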